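import Pool.Agent.Helper93.FZ.St

/-!
# FZ, module APR

The a priori bound: if all the vertex sums are at most `1/2`, then they are at most
`1/2 - Psi / (6 n^4)`.
-/

set_option autoImplicit false

namespace Pool.Agent.Helper72.FZ

open Finset
open Pool.Agent.Helper93.FZ

/-- The bound at a row where the largest vertex sum is attained. -/
private lemma apr_core (hENE : StENE) (hCNT : StCNT) (hMIN : StMIN) (hVER : StVER)
    (n : ℕ) (k : ℝ) (A B C X Y Z : Fin n → Fin n → ℝ) (u v w : Fin n → ℝ)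
    (h : Wt n k A B C u v w) (hs : Sol A B C X Y Z) (hn : 0 < n) (hk : 4 * k < n)
    (hP : 0 < Psi n k (∑ r, u r)) (x : ℝ) (hx : x ≤ 1 / 2) (hB : Bd A B C X Y Z x)
    (r : Fin n) (hr : ∑ c, A r c * X r c = x) :
    x ≤ 1 / 2 - Psi n k (∑ r, u r) / (6 * (n : ℝ) ^ 4) := by
  have hn' : (0 : ℝ) < n := by exact_mod_cast hn
  obtain ⟨hBY, hCZ, hE⟩ := hENE n k A B C X Y Z u v w h hs
  obtain ⟨hvu, hwu, hH0, hHk, hk0, hu0, hv0, hw0, hN1, hN2, hN3⟩ :=
    hCNT n k A B C u v w h hn hk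
  obtain ⟨hX, hY, hZ⟩ := hMIN n k x A B C X Y Z u v w h hs hk hx hB
  have hnn : 0 ≤ (1 - 2 * x) / (n : ℝ) := div_nonneg (by linarith) hn'.le
  have hV := hVER n k x A B C X Y Z u v w h hs hk hB (fun i j => hnn.trans (hX i j))
    (fun i j => hnn.trans (hY i j)) (fun i j => hnn.trans (hZ i j)) r
  rw [hBY, hr] at hV
  set H : ℝ := ∑ r, u r with hH
  set Ξ : ℝ := ∑ r, ∑ c, A r c * X r c with hΞ
  set N : ℝ := (n : ℝ) ^ 3 - 3 * n * H + 3 * k * H with hN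
  have huk := h.uk r
  have hur := hu0 r
  have hΞ0 : 0 ≤ Ξ := by
    rw [hΞ]
    exact Finset.sum_nonneg fun i _ => Finset.sum_nonneg fun j _ =>
      mul_nonneg (h.A0 i j) (hnn.trans (hX i j))
  -- `(n^2-H)^2 ≤ 3 Ξ N`
  have hE2 : ((n : ℝ) ^ 2 - H) ^ 2 ≤ N * (3 * Ξ) :=
    hE.trans (mul_le_mul_of_nonneg_right hN1 (by linarith))
  have hPs : Psi n k H = ((n : ℝ) ^ 2 - H) ^ 2 - 6 * k * N := by
    rw [hN]; rfl
  -- `Psi ≤ 3 N (Ξ - 2k)`
  have h1 : Psi n k H ≤ 3 * N * (Ξ - 2 * k) := by rw [hPs]; nlinarith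
  have h2 : 0 < Ξ - 2 * k := by
    by_contra hcon
    have : 3 * N * (Ξ - 2 * k) ≤ 0 :=
      mul_nonpos_of_nonneg_of_nonpos (by linarith) (by linarith)
    linarith
  have h3 : Psi n k H ≤ 3 * (n : ℝ) ^ 3 * (Ξ - 2 * k) := by
    refine h1.trans (mul_le_mul_of_nonneg_right (by linarith) h2.le)
  -- `(n - k - 2 u r) (1 - 2 x) ≥ Ξ - 2 k`
  have h4 : Ξ - 2 * k ≤ (n - k - 2 * u r) * (1 - 2 * x) := by nlinarith
  have h5 : (n - k - 2 * u r) * (1 - 2 * x) ≤ n * (1 - 2 * x) :=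
    mul_le_mul_of_nonneg_right (by linarith) (by linarith)
  have h6 : Psi n k H ≤ 3 * (n : ℝ) ^ 4 * (1 - 2 * x) := by
    calc Psi n k H ≤ 3 * (n : ℝ) ^ 3 * (Ξ - 2 * k) := h3
      _ ≤ 3 * (n : ℝ) ^ 3 * (n * (1 - 2 * x)) :=
          mul_le_mul_of_nonneg_left (h4.trans h5) (by positivity)
      _ = 3 * (n : ℝ) ^ 4 * (1 - 2 * x) := by ring
  have h7 : Psi n k H / (6 * (n : ℝ) ^ 4) ≤ (1 - 2 * x) / 2 := by
    rw [div_le_iff₀ (by positivity)]
    calc Psi n k H ≤ 3 * (n : ℝ) ^ 4 * (1 - 2 * x) := h6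
      _ = (1 - 2 * x) / 2 * (6 * (n : ℝ) ^ 4) := by ring
  linarith

private lemma bdRot {n : ℕ} {A B C X Y Z : Fin n → Fin n → ℝ} {x : ℝ}
    (h : Bd A B C X Y Z x) : Bd B C A Y Z X x :=
  ⟨h.2.1, h.2.2, h.1⟩

/-- Module APR. -/
theorem hAPR : StAPR := by
  intro hENE hCNT hMIN hVER n k A B C X Y Z u v w h hs hn hk hP hB
  have : Nonempty (Fin n) := ⟨⟨0, hn⟩⟩
  obtain ⟨hvu, hwu, -⟩ := hCNT n k A B C u v w h hn hk
  obtain ⟨r0, hr0⟩ := Finite.exists_max fun r => ∑ c, A r c * X r c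
  obtain ⟨c0, hc0⟩ := Finite.exists_max fun c => ∑ s, B c s * Y c s
  obtain ⟨s0, hs0⟩ := Finite.exists_max fun s => ∑ r, C s r * Z s r
  set a : ℝ := ∑ c, A r0 c * X r0 c with ha
  set b : ℝ := ∑ s, B c0 s * Y c0 s with hb
  set d : ℝ := ∑ r, C s0 r * Z s0 r with hd
  have hal : a ≤ 1 / 2 := hB.1 r0
  have hbl : b ≤ 1 / 2 := hB.2.1 c0
  have hdl : d ≤ 1 / 2 := hB.2.2 s0
  set x : ℝ := max a (max b d) with hx
  have hax : a ≤ x := le_max_left _ _
  have hbx : b ≤ x := (le_max_left _ _).trans (le_max_right _ _)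
  have hdx : d ≤ x := (le_max_right _ _).trans (le_max_right _ _)
  have hx2 : x ≤ 1 / 2 := max_le hal (max_le hbl hdl)
  have hBx : Bd A B C X Y Z x :=
    ⟨fun r => (hr0 r).trans hax, fun c => (hc0 c).trans hbx, fun s => (hs0 s).trans hdx⟩
  have key : x ≤ 1 / 2 - Psi n k (∑ r, u r) / (6 * (n : ℝ) ^ 4) := by
    have hcase : a = x ∨ b = x ∨ d = x := by
      rcases max_choice a (max b d) with h1 | h1
      · exact Or.inl (by rw [hx]; exact h1.symm)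
      · rcases max_choice b d with h2 | h2
        · exact Or.inr (Or.inl (by rw [hx, h1, h2]))
        · exact Or.inr (Or.inr (by rw [hx, h1, h2]))
    rcases hcase with h1 | h1 | h1
    · exact apr_core hENE hCNT hMIN hVER n k A B C X Y Z u v w h hs hn hk hP x hx2 hBx r0 h1
    · have := apr_core hENE hCNT hMIN hVER n k B C A Y Z X v w u h.rot hs.rot hn hk
        (by rw [hvu]; exact hP) x hx2 (bdRot hBx) c0 h1
      rwa [hvu] at this
    · have := apr_core hENE hCNT hMIN hVER n k C A B Z X Y w u v h.rot.rot hs.rot.rot hn hk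
        (by rw [hwu]; exact hP) x hx2 (bdRot (bdRot hBx)) s0 h1
      rwa [hwu] at this
  exact ⟨fun r => (hBx.1 r).trans key, fun c => (hBx.2.1 c).trans key,
    fun s => (hBx.2.2 s).trans key⟩

end Pool.Agent.Helper72.FZ
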